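import Pool.Agent.H474R2.PG.Final

set_option autoImplicit false

/-!
# Conjecture F: no main term fits in a short interval (helper50)

From the long strings of composite values (`Pool.Agent.H474R2.PG.composite_strings`), for all admissible
quadratic polynomials and in arithmetic progressions.
-/

namespace Pool.Agent.X50.ErrQuad

open Polynomial Finset MeasureTheory

open scoped Classical in
/-- the number of `1 ≤ n ≤ N`, `n ≡ r` modulo `q`, with `a n² + b n + c` prime -/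
noncomputable def P (a b c : ℤ) (q r N : ℕ) : ℕ :=
  ((Icc 1 N).filter (fun n : ℕ => n ≡ r [MOD q] ∧
    ∃ p : ℕ, p.Prime ∧ a * (n : ℤ) ^ 2 + b * n + c = p)).card

/-- the polynomial `f (q x + r)` -/
noncomputable def F (a b c : ℤ) (q r : ℕ) : ℤ[X] :=
  C (a * (q : ℤ) ^ 2) * X ^ 2 + C (2 * a * q * r + b * q : ℤ) * X + C (a * (r : ℤ) ^ 2 + b * r + c)

lemma F_eval (a b c : ℤ) (q r : ℕ) (x : ℤ) :
    (F a b c q r).eval x = a * (q * x + r) ^ 2 + b * (q * x + r) + c := by
  simp [F]; ring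

lemma F_deg (a b c : ℤ) (q r : ℕ) (ha : 0 < a) (hq : 1 ≤ q) : (F a b c q r).natDegree = 2 := by
  unfold F
  exact natDegree_quadratic (by positivity)

lemma F_lead (a b c : ℤ) (q r : ℕ) (ha : 0 < a) (hq : 1 ≤ q) : 0 < (F a b c q r).leadingCoeff := by
  unfold F
  rw [leadingCoeff_quadratic (by positivity)]
  positivity

lemma F_prim (a b c : ℤ) (q r : ℕ) (hg : Int.gcd (Int.gcd a b : ℤ) c = 1)
    (hqr : IsCoprime (q : ℤ) (a * (r : ℤ) ^ 2 + b * r + c)) : (F a b c q r).IsPrimitive := by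
  intro d hd
  rw [C_dvd_iff_dvd_coeff] at hd
  have h0 := hd 0
  have h1 := hd 1
  have h2 := hd 2
  unfold F at h0 h1 h2
  simp only [coeff_add, coeff_C_mul, coeff_X_pow, coeff_X, coeff_C] at h0 h1 h2
  norm_num at h0 h1 h2
  have hdq : IsCoprime d (q : ℤ) := (hqr.of_isCoprime_of_dvd_right h0).symm
  have ha : d ∣ a := (hdq.pow_right (n := 2)).dvd_of_dvd_mul_right h2
  have h3 : d ∣ (2 * a * r + b) * q := by
    have : (2 * a * r + b) * (q : ℤ) = 2 * a * q * r + b * q := by ring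
    rw [this]; exact h1
  have h4 : d ∣ 2 * a * r + b := hdq.dvd_of_dvd_mul_right h3
  have hb : d ∣ b := by
    have h5 : d ∣ 2 * a * r := Dvd.dvd.mul_right (Dvd.dvd.mul_left ha 2) _
    exact (dvd_add_right h5).1 h4
  have hc : d ∣ c := by
    have h5 : d ∣ a * (r : ℤ) ^ 2 + b * r := dvd_add (Dvd.dvd.mul_right ha _) (Dvd.dvd.mul_right hb _)
    exact (dvd_add_right h5).1 h0
  have h6 : d ∣ ((Int.gcd (Int.gcd a b : ℤ) c : ℕ) : ℤ) := Int.dvd_coe_gcd (Int.dvd_coe_gcd ha hb) hc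
  rw [hg] at h6
  exact isUnit_of_dvd_one (by exact_mod_cast h6)

lemma F_irr (a b c : ℤ) (q r : ℕ) (ha : 0 < a) (hg : Int.gcd (Int.gcd a b : ℤ) c = 1)
    (hD : ¬ IsSquare (b ^ 2 - 4 * a * c)) (hq : 1 ≤ q)
    (hqr : IsCoprime (q : ℤ) (a * (r : ℤ) ^ 2 + b * r + c)) : Irreducible (F a b c q r) := by
  rw [IsPrimitive.Int.irreducible_iff_irreducible_map_cast (F_prim a b c q r hg hqr)]
  have hinj : Function.Injective (Int.castRingHom ℚ) := Int.cast_injective
  have hdeg : ((F a b c q r).map (Int.castRingHom ℚ)).natDegree = 2 := by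
    rw [natDegree_map_eq_of_injective hinj, F_deg a b c q r ha hq]
  rw [irreducible_iff_roots_eq_zero_of_degree_le_three (by rw [hdeg]) (by rw [hdeg]; norm_num)]
  rw [Multiset.eq_zero_iff_forall_notMem]
  intro x hx
  have h := (mem_roots'.1 hx).2
  simp [F, IsRoot] at h
  apply hD
  rw [← Rat.isSquare_intCast_iff]
  refine ⟨2 * a * (q * x + r) + b, ?_⟩
  push_cast
  linear_combination (-4 * a : ℚ) * h

/-- long intervals without prime values -/
theorem gap (a b c : ℤ) (q r : ℕ) (ha : 0 < a) (hg : Int.gcd (Int.gcd a b : ℤ) c = 1)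
    (hD : ¬ IsSquare (b ^ 2 - 4 * a * c)) (hq : 1 ≤ q)
    (hqr : IsCoprime (q : ℤ) (a * (r : ℤ) ^ 2 + b * r + c)) :
    ∃ κ : ℝ, 0 < κ ∧ ∃ Y₀ : ℝ, ∀ Y : ℝ, Y₀ ≤ Y → ∀ M : ℕ, Y ≤ M →
    ∃ x : ℕ, M < x ∧ (x : ℝ) + κ * Real.log Y * Real.log (Real.log Y) ≤ M + Y ∧
      ∀ k : ℕ, (k : ℝ) ≤ κ * Real.log Y * Real.log (Real.log Y) →
        ¬ ∃ p : ℕ, p.Prime ∧ a * ((q * (x + k) + r : ℕ) : ℤ) ^ 2 + b * ((q * (x + k) + r : ℕ) : ℤ) + c = p := by
  obtain ⟨κ, hκ, Y₀, h⟩ := Pool.Agent.H474R2.PG.composite_strings (F a b c q r)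
    (F_irr a b c q r ha hg hD hq hqr)
    (by rw [F_deg a b c q r ha hq]; norm_num) (F_lead a b c q r ha hq)
  refine ⟨κ, hκ, Y₀, fun Y hY M hM => ?_⟩
  obtain ⟨x, hx, hx2, hk⟩ := h Y hY M (by exact_mod_cast hM)
  lift x to ℕ using (by have := Int.natCast_nonneg M; omega)
  refine ⟨x, by exact_mod_cast hx, by exact_mod_cast hx2, fun k hk2 hp => ?_⟩
  obtain ⟨l, hl, hle⟩ := hp
  obtain ⟨p, hp1, -, hp3, hp4⟩ := hk k hk2
  rw [F_eval] at hp3 hp4
  have e : a * ((q : ℤ) * ((x : ℤ) + (k : ℤ)) + r) ^ 2 + b * ((q : ℤ) * ((x : ℤ) + (k : ℤ)) + r) + c =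
      (l : ℤ) := by
    rw [← hle]; push_cast; ring
  rw [e] at hp3 hp4
  have h1 : p ∣ l := by exact_mod_cast hp3
  have h2 : p < l := by exact_mod_cast hp4
  rcases (Nat.dvd_prime hl).1 h1 with h3 | h3
  · exact hp1.one_lt.ne' h3
  · omega

lemma P_eq_of_gap {a b c : ℤ} {q r u v : ℕ} (huv : u ≤ v)
    (h : ∀ n : ℕ, u < n → n ≤ v → n ≡ r [MOD q] → ¬ ∃ p : ℕ, p.Prime ∧ a * (n : ℤ) ^ 2 + b * n + c = p) :
    P a b c q r v = P a b c q r u := by
  unfold P
  congr 1
  ext n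
  simp only [mem_filter, mem_Icc]
  constructor
  · rintro ⟨h1, h3, h4⟩
    refine ⟨⟨h1.1, ?_⟩, h3, h4⟩
    by_contra h5
    exact h n (by omega) h1.2 h3 h4
  · rintro ⟨h1, h3, h4⟩
    exact ⟨⟨h1.1, by omega⟩, h3, h4⟩

/-- the integral of `1 / log t` from `2` -/
noncomputable def L (x : ℝ) : ℝ := ∫ t in (2 : ℝ)..x, 1 / Real.log t

lemma L_int {a b : ℝ} (ha : 2 ≤ a) (hb : 2 ≤ b) :
    IntervalIntegrable (fun t : ℝ => 1 / Real.log t) volume a b := by
  apply ContinuousOn.intervalIntegrable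
  intro t ht
  have ht2 : 2 ≤ t := by
    rcases le_total a b with h | h
    · rw [Set.uIcc_of_le h] at ht; linarith [ht.1]
    · rw [Set.uIcc_of_ge h] at ht; linarith [ht.1]
  have hl : 0 < Real.log t := Real.log_pos (by linarith)
  apply ContinuousAt.continuousWithinAt
  exact continuousAt_const.div (Real.continuousAt_log (by linarith)) hl.ne'

lemma L_sub {a b : ℝ} (ha : 2 ≤ a) (hab : a ≤ b) :
    (b - a) / Real.log b ≤ L b - L a := by
  unfold L
  rw [intervalIntegral.integral_interval_sub_left (L_int le_rfl (ha.trans hab)) (L_int le_rfl ha)]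
  have h1 : (b - a) / Real.log b = ∫ _t in a..b, 1 / Real.log b := by
    rw [intervalIntegral.integral_const, smul_eq_mul]; ring
  rw [h1]
  apply intervalIntegral.integral_mono_on hab (by simp) (L_int ha (ha.trans hab))
  intro t ht
  have ht0 : 2 ≤ t := ha.trans ht.1
  have hl : 0 < Real.log t := Real.log_pos (by linarith)
  exact one_div_le_one_div_of_le hl (Real.log_le_log (by linarith) ht.2)

/-- **Lower bound for the error term**, for every main term `M` with increments `≥ C / log x`. -/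
theorem omega (a b c : ℤ) (q r : ℕ) (ha : 0 < a) (hg : Int.gcd (Int.gcd a b : ℤ) c = 1)
    (hD : ¬ IsSquare (b ^ 2 - 4 * a * c)) (hq : 1 ≤ q)
    (hqr : IsCoprime (q : ℤ) (a * (r : ℤ) ^ 2 + b * r + c)) :
    ∃ κ : ℝ, 0 < κ ∧ ∃ Y₀ : ℝ, ∀ (C Y : ℝ) (x : ℕ) (M : ℕ → ℝ), 0 ≤ C → Y₀ ≤ Y → Y ≤ x →
      (∀ n : ℕ, x ≤ n → ((n + 1 : ℕ) : ℝ) ≤ x + Y → C / Real.log x ≤ M (n + 1) - M n) →
      ∃ N : ℕ, x ≤ N ∧ (N : ℝ) ≤ x + Y ∧
        κ * C * (Real.log Y / Real.log x) * Real.log (Real.log Y) ≤ |(P a b c q r N : ℝ) - M N| := by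
  obtain ⟨κ, hκ, Y₀, h⟩ := gap a b c q r ha hg hD hq hqr
  refine ⟨κ / 8, by positivity, max (2 * q * Y₀) (4 * q ^ 2 + 2 * (q + r) + Real.exp 4 + 2),
    fun C Y x M hC hY hYx hM => ?_⟩
  have hq1 : (1 : ℝ) ≤ q := by exact_mod_cast hq
  have ha0 : (0 : ℝ) ≤ r := Nat.cast_nonneg _
  have hY1 : 2 * q * Y₀ ≤ Y := (le_max_left _ _).trans hY
  have hY2 : 4 * (q : ℝ) ^ 2 + 2 * (q + r) + Real.exp 4 + 2 ≤ Y := (le_max_right _ _).trans hY
  have he4 := Real.exp_pos 4
  have hYpos : 0 < Y := by nlinarith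
  have hlogY : 4 ≤ Real.log Y := by
    rw [Real.le_log_iff_exp_le hYpos]
    nlinarith
  set Y' : ℝ := Y / (2 * q) with hY'
  have hqY' : q * Y' = Y / 2 := by rw [hY']; field_simp
  have hY'0 : Y₀ ≤ Y' := by
    rw [hY', le_div_iff₀ (by positivity)]; linarith
  have hY'pos : 0 < Y' := by positivity
  -- the logarithms
  have hl2q : Real.log (2 * q) ≤ Real.log Y / 2 := by
    have h1 : (2 * q : ℝ) ^ 2 ≤ Y := by nlinarith
    have h2 := Real.log_le_log (by positivity) h1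
    rw [Real.log_pow] at h2
    push_cast at h2
    linarith
  have hlY' : Real.log Y / 2 ≤ Real.log Y' := by
    rw [hY', Real.log_div (by positivity) (by positivity)]
    linarith
  have hllY : 0 < Real.log (Real.log Y) := Real.log_pos (by linarith)
  have hllY' : Real.log (Real.log Y) / 2 ≤ Real.log (Real.log Y') := by
    have h1 : Real.log (Real.log Y / 2) ≤ Real.log (Real.log Y') := Real.log_le_log (by linarith) hlY'
    have h2 : Real.log (Real.log Y / 2) = Real.log (Real.log Y) - Real.log 2 := Real.log_div (by linarith) (by norm_num)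
    have h3 : 2 * Real.log 2 ≤ Real.log (Real.log Y) := by
      have h4 : (2 : ℝ) ^ 2 ≤ Real.log Y := by norm_num; exact hlogY
      have h5 := Real.log_le_log (by norm_num) h4
      rw [Real.log_pow] at h5
      exact_mod_cast h5
    linarith
  set H : ℝ := κ * Real.log Y' * Real.log (Real.log Y') with hH
  have hH1 : κ / 4 * (Real.log Y * Real.log (Real.log Y)) ≤ H := by
    have h1 : Real.log Y / 2 * (Real.log (Real.log Y) / 2) ≤ Real.log Y' * Real.log (Real.log Y') :=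
      mul_le_mul hlY' hllY' (by linarith) (by linarith)
    rw [hH]
    nlinarith
  have hH0 : 0 < H := lt_of_lt_of_le (by positivity) hH1
  -- the gap
  set Q : ℕ := x / q + 1 with hQ
  have hQq : x < q * Q := by
    rw [hQ]
    exact Nat.lt_mul_div_succ x (by omega)
  have hQq2 : q * Q ≤ x + q := by
    rw [hQ, mul_add, mul_one]
    have := Nat.mul_div_le x q
    omega
  have hQY : Y' ≤ Q := by
    have h1 : (x : ℝ) < q * Q := by exact_mod_cast hQq
    have h2 : q * Y' ≤ q * Q := by rw [hqY']; linarith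
    exact le_of_mul_le_mul_left h2 (by linarith)
  obtain ⟨y, hy1, hy2, hy3⟩ := h Y' hY'0 Q hQY
  rw [← hH] at hy2 hy3
  set K : ℕ := ⌊H⌋₊ with hK
  have hK1 : (K : ℝ) ≤ H := Nat.floor_le hH0.le
  have hK2 : H < K + 1 := Nat.lt_floor_add_one H
  set u : ℕ := q * y + r - 1 with hu
  set v : ℕ := q * (y + K) + r with hv
  have hqy : q * Q < q * y := Nat.mul_lt_mul_of_pos_left hy1 (by omega)
  have hxu : x ≤ u := by omega
  have huv : u ≤ v := by
    have : q * y ≤ q * (y + K) := Nat.mul_le_mul_left _ (by omega)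
    omega
  have hPuv : P a b c q r v = P a b c q r u := by
    apply P_eq_of_gap huv
    intro n hn1 hn2 hn3 hp
    have hna : r ≤ n := by omega
    obtain ⟨m, hm⟩ := (Nat.modEq_iff_dvd' hna).1 hn3.symm
    have hnm : n = q * m + r := by omega
    have hm1 : y ≤ m := by
      by_contra h4
      have h5 : m + 1 ≤ y := by omega
      have h6 : q * (m + 1) ≤ q * y := Nat.mul_le_mul_left _ h5
      rw [mul_add, mul_one] at h6
      omega
    have hm2 : m ≤ y + K := by
      by_contra h4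
      have h5 : y + K + 1 ≤ m := by omega
      have h6 : q * (y + K + 1) ≤ q * m := Nat.mul_le_mul_left _ h5
      rw [mul_add q (y + K) 1, mul_one] at h6
      omega
    apply hy3 (m - y) ?_
    · rw [show y + (m - y) = m by omega, ← hnm]
      exact hp
    · have h7 : m - y ≤ K := by omega
      have h8 : ((m - y : ℕ) : ℝ) ≤ K := by exact_mod_cast h7
      linarith
  have hvx : (v : ℝ) ≤ x + Y := by
    have h1 : (q : ℝ) * Q ≤ x + q := by exact_mod_cast hQq2
    have h2 : (v : ℝ) = q * (y + K) + r := by rw [hv]; push_cast; ring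
    have h3 : (y : ℝ) + K ≤ Q + Y' := by linarith
    have h4 : (q : ℝ) * (y + K) ≤ q * (Q + Y') := mul_le_mul_of_nonneg_left h3 (by linarith)
    rw [mul_add (q : ℝ) (Q : ℝ) Y', hqY'] at h4
    have h5 : 2 * ((q : ℝ) + r) ≤ Y := by nlinarith [sq_nonneg (q : ℝ)]
    linarith
  have huvr : (u : ℝ) ≤ v := by exact_mod_cast huv
  have hxur : (x : ℝ) ≤ u := by exact_mod_cast hxu
  have hx2 : (2 : ℝ) ≤ x := by nlinarith
  have hlx : 0 < Real.log x := Real.log_pos (by linarith)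
  -- the growth of the main term
  have hgrow : ∀ k : ℕ, u + k ≤ v → (k : ℝ) * (C / Real.log x) ≤ M (u + k) - M u := by
    intro k
    induction k with
    | zero => intro _; simp
    | succ k ih =>
      intro hk
      have h1 := ih (by omega)
      have h2 := hM (u + k) (by omega) (by
        have h4 : ((u + k + 1 : ℕ) : ℝ) ≤ ((v : ℕ) : ℝ) := by exact_mod_cast hk
        linarith)
      rw [← add_assoc]
      push_cast
      linarith
  have hg2 := hgrow (v - u) (by omega)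
  rw [show u + (v - u) = v by omega] at hg2
  have hd : H ≤ ((v - u : ℕ) : ℝ) := by
    rw [Nat.cast_sub huv]
    have h1 : ((u : ℕ) : ℝ) = q * y + r - 1 := by
      rw [hu, Nat.cast_sub (by omega)]; push_cast; ring
    have h2 : ((v : ℕ) : ℝ) = q * y + q * K + r := by
      rw [hv]; push_cast; ring
    have hK0 : (0 : ℝ) ≤ K := Nat.cast_nonneg _
    have h3 : (K : ℝ) ≤ q * K := le_mul_of_one_le_left hK0 hq1
    rw [h1, h2]
    linarith
  have hCl : 0 ≤ C / Real.log x := by positivity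
  have hdiff : H * (C / Real.log x) ≤ M v - M u := by
    refine le_trans ?_ hg2
    exact mul_le_mul_of_nonneg_right hd hCl
  have htar : κ / 8 * C * (Real.log Y / Real.log x) * Real.log (Real.log Y) ≤
      H * (C / Real.log x) / 2 := by
    have h1 := mul_le_mul_of_nonneg_right hH1 hCl
    have h2 : κ / 8 * C * (Real.log Y / Real.log x) * Real.log (Real.log Y) =
        κ / 4 * (Real.log Y * Real.log (Real.log Y)) * (C / Real.log x) / 2 := by
      field_simp; ring
    rw [h2]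
    linarith
  have hPR : (P a b c q r v : ℝ) = P a b c q r u := by exact_mod_cast hPuv
  by_cases hcase : H * (C / Real.log x) / 2 ≤ |(P a b c q r v : ℝ) - M v|
  · exact ⟨v, by omega, hvx, htar.trans hcase⟩
  · refine ⟨u, hxu, by linarith, htar.trans ?_⟩
    push Not at hcase
    have h1 := neg_abs_le ((P a b c q r v : ℝ) - M v)
    have h2 := le_abs_self ((P a b c q r u : ℝ) - M u)
    linarith

/-- the main term `C ∫ dt / log t` -/
theorem omegaLi (a b c : ℤ) (q r : ℕ) (ha : 0 < a) (hg : Int.gcd (Int.gcd a b : ℤ) c = 1)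
    (hD : ¬ IsSquare (b ^ 2 - 4 * a * c)) (hq : 1 ≤ q)
    (hqr : IsCoprime (q : ℤ) (a * (r : ℤ) ^ 2 + b * r + c)) :
    ∃ κ : ℝ, 0 < κ ∧ ∃ Y₀ : ℝ, ∀ (C Y : ℝ) (x : ℕ), 0 ≤ C → Y₀ ≤ Y → Y ≤ x →
      ∃ N : ℕ, x ≤ N ∧ (N : ℝ) ≤ x + Y ∧
        κ * C * (Real.log Y / Real.log x) * Real.log (Real.log Y) ≤
          |(P a b c q r N : ℝ) - C * L N| := by
  obtain ⟨κ, hκ, Y₀, h⟩ := omega a b c q r ha hg hD hq hqr
  refine ⟨κ / 2, by positivity, max Y₀ 2, fun C Y x hC hY hYx => ?_⟩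
  have hY2 : (2 : ℝ) ≤ Y := (le_max_right _ _).trans hY
  have hx2 : (2 : ℝ) ≤ x := hY2.trans hYx
  have hlx : 0 < Real.log x := Real.log_pos (by linarith)
  obtain ⟨N, hN1, hN2, hN3⟩ := h (C / 2) Y x (fun n => C * L n) (by positivity)
    ((le_max_left _ _).trans hY) hYx (by
      intro n hn1 hn2
      have hxn : (x : ℝ) ≤ n := by exact_mod_cast hn1
      have h1 := L_sub (a := (n : ℝ)) (b := ((n + 1 : ℕ) : ℝ)) (by linarith) (by push_cast; linarith)
      have h2 : ((n + 1 : ℕ) : ℝ) ≤ (x : ℝ) ^ 2 := by nlinarith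
      have h3 : Real.log ((n + 1 : ℕ) : ℝ) ≤ 2 * Real.log x := by
        have h4 := Real.log_le_log (by push_cast; linarith) h2
        rw [Real.log_pow] at h4
        exact_mod_cast h4
      have h5 : 0 < Real.log ((n + 1 : ℕ) : ℝ) := Real.log_pos (by push_cast; linarith)
      have h6 : 1 / (2 * Real.log x) ≤ L ((n + 1 : ℕ) : ℝ) - L (n : ℝ) := by
        refine le_trans ?_ h1
        have h7 : (((n + 1 : ℕ) : ℝ) - n) = 1 := by push_cast; ring
        rw [h7]
        exact one_div_le_one_div_of_le h5 h3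
      have h8 : C / 2 / Real.log x = C * (1 / (2 * Real.log x)) := by field_simp
      rw [h8]
      have h9 := mul_le_mul_of_nonneg_left h6 hC
      linarith)
  refine ⟨N, hN1, hN2, le_trans (le_of_eq ?_) hN3⟩
  ring

end Pool.Agent.X50.ErrQuad
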