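import Pool.Agent.H474R2.PG.Final

set_option autoImplicit false

/-!
# Prime values of an irreducible polynomial: no main term with a small error in short intervals (helper50)

From the long strings of composite values (`Pool.Agent.H474R2.PG.composite_strings`).
-/

namespace Pool.Agent.X50.ErrTerm

open Polynomial Finset

open scoped Classical in
/-- the number of `0 ≤ n ≤ N` for which `f(n)` is a (positive) prime -/
noncomputable def P (f : ℤ[X]) (N : ℕ) : ℕ :=
  ((range (N + 1)).filter (fun n : ℕ => ∃ p : ℕ, p.Prime ∧ f.eval (n : ℤ) = p)).card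

lemma P_eq_of_gap {f : ℤ[X]} {a b : ℕ} (hab : a ≤ b)
    (h : ∀ n, a < n → n ≤ b → ¬ ∃ p : ℕ, p.Prime ∧ f.eval (n : ℤ) = p) : P f b = P f a := by
  unfold P
  congr 1
  ext n
  simp only [mem_filter, mem_range]
  constructor
  · rintro ⟨h1, h3⟩
    refine ⟨?_, h3⟩
    by_contra h4
    exact h n (by omega) (by omega) h3
  · rintro ⟨h1, h3⟩
    exact ⟨by omega, h3⟩

/-- long intervals without prime values -/
theorem gap (f : ℤ[X]) (hf : Irreducible f) (hd : 0 < f.natDegree) (hl : 0 < f.leadingCoeff) :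
    ∃ c : ℝ, 0 < c ∧ ∃ Y₀ : ℝ, ∀ Y : ℝ, Y₀ ≤ Y → ∀ M : ℕ, Y ≤ M →
    ∃ x : ℕ, M < x ∧ (x : ℝ) + c * Real.log Y * Real.log (Real.log Y) ≤ M + Y ∧
      ∀ k : ℕ, (k : ℝ) ≤ c * Real.log Y * Real.log (Real.log Y) →
        ¬ ∃ p : ℕ, p.Prime ∧ f.eval ((x + k : ℕ) : ℤ) = p := by
  obtain ⟨c, hc, Y₀, h⟩ := Pool.Agent.H474R2.PG.composite_strings f hf hd hl
  refine ⟨c, hc, Y₀, fun Y hY M hM => ?_⟩
  obtain ⟨x, hx, hx2, hk⟩ := h Y hY M (by exact_mod_cast hM)
  lift x to ℕ using (by have := Int.natCast_nonneg M; omega)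
  refine ⟨x, by exact_mod_cast hx, by exact_mod_cast hx2, fun k hk2 hp => ?_⟩
  obtain ⟨q, hq, he⟩ := hp
  obtain ⟨p, hp1, -, hp3, hp4⟩ := hk k hk2
  have e : (((x : ℕ) : ℤ) + ((k : ℕ) : ℤ)) = ((x + k : ℕ) : ℤ) := by push_cast; ring
  rw [e, he] at hp3 hp4
  have h1 : p ∣ q := by exact_mod_cast hp3
  have h2 : p < q := by exact_mod_cast hp4
  rcases (Nat.dvd_prime hq).1 h1 with h3 | h3
  · exact hp1.one_lt.ne' h3
  · omega

/-- **No main term fits in a short interval.** `M` is any function which grows by at least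
`C / log x` in each step in `[x, x + Y]`. -/
theorem omega (f : ℤ[X]) (hf : Irreducible f) (hd : 0 < f.natDegree) (hl : 0 < f.leadingCoeff) :
    ∃ c : ℝ, 0 < c ∧ ∃ Y₀ : ℝ, ∀ (C Y : ℝ) (x : ℕ) (M : ℕ → ℝ), 0 ≤ C → Y₀ ≤ Y → Y ≤ x →
      (∀ n : ℕ, x ≤ n → ((n + 1 : ℕ) : ℝ) ≤ x + Y → C / Real.log x ≤ M (n + 1) - M n) →
      ∃ N : ℕ, x ≤ N ∧ (N : ℝ) ≤ x + Y ∧
        c * C * (Real.log Y / Real.log x) * Real.log (Real.log Y) ≤ |(P f N : ℝ) - M N| := by
  obtain ⟨c, hc, Y₀, h⟩ := gap f hf hd hl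
  refine ⟨c / 2, by positivity, max Y₀ 3, fun C Y x M hC hY hYx hM => ?_⟩
  have hY3 : (3 : ℝ) ≤ Y := (le_max_right _ _).trans hY
  obtain ⟨y, hy1, hy2, hy3⟩ := h Y ((le_max_left _ _).trans hY) x hYx
  have hlogY : 1 < Real.log Y := by
    rw [Real.lt_log_iff_exp_lt (by linarith)]
    linarith [Real.exp_one_lt_d9]
  have hllY : 0 < Real.log (Real.log Y) := Real.log_pos hlogY
  set H : ℝ := c * Real.log Y * Real.log (Real.log Y) with hH
  have hH0 : 0 < H := by positivity
  have hx3 : (3 : ℝ) ≤ x := hY3.trans hYx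
  set K : ℕ := ⌊H⌋₊ with hK
  have hK1 : (K : ℝ) ≤ H := Nat.floor_le hH0.le
  have hK2 : H < K + 1 := Nat.lt_floor_add_one H
  have hlx : 0 < Real.log x := Real.log_pos (by linarith)
  have hPab : P f (y + K) = P f (y - 1) := by
    apply P_eq_of_gap (by omega)
    intro n hn1 hn2
    have h1 : n = y + (n - y) := by omega
    rw [h1]
    apply hy3
    have h2 : n - y ≤ K := by omega
    have h3 : ((n - y : ℕ) : ℝ) ≤ K := by exact_mod_cast h2
    linarith
  have hyb : ((y + K : ℕ) : ℝ) ≤ x + Y := by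
    push_cast; linarith
  -- the growth of the main term
  have hgrow : ∀ k : ℕ, k ≤ K + 1 → (k : ℝ) * (C / Real.log x) ≤ M (y - 1 + k) - M (y - 1) := by
    intro k
    induction k with
    | zero => intro _; simp
    | succ k ih =>
      intro hk
      have h1 := ih (by omega)
      have h2 := hM (y - 1 + k) (by omega) (by
        have h3 : y - 1 + k + 1 ≤ y + K := by omega
        have h4 : ((y - 1 + k + 1 : ℕ) : ℝ) ≤ ((y + K : ℕ) : ℝ) := by exact_mod_cast h3
        linarith)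
      have h5 : y - 1 + (k + 1) = y - 1 + k + 1 := by omega
      rw [h5]
      push_cast
      linarith
  have hg := hgrow (K + 1) le_rfl
  have hidx : y - 1 + (K + 1) = y + K := by omega
  rw [hidx] at hg
  have hCl : 0 ≤ C / Real.log x := by positivity
  have hg2 : H * (C / Real.log x) ≤ M (y + K) - M (y - 1) := by
    refine le_trans ?_ hg
    push_cast
    exact mul_le_mul_of_nonneg_right hK2.le hCl
  have htar : c / 2 * C * (Real.log Y / Real.log x) * Real.log (Real.log Y) =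
      H * (C / Real.log x) / 2 := by
    rw [hH]; field_simp
  have hnn : 0 ≤ H * (C / Real.log x) := by positivity
  have hPR : (P f (y + K) : ℝ) = P f (y - 1) := by exact_mod_cast hPab
  by_cases hcase : H * (C / Real.log x) / 2 ≤ |(P f (y + K) : ℝ) - M (y + K)|
  · exact ⟨y + K, by omega, hyb, by rw [htar]; exact hcase⟩
  · refine ⟨y - 1, by omega, ?_, ?_⟩
    · have : ((y - 1 : ℕ) : ℝ) ≤ ((y + K : ℕ) : ℝ) := by
        have : y - 1 ≤ y + K := by omega
        exact_mod_cast this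
      linarith
    rw [htar]
    push Not at hcase
    have h1 := neg_abs_le ((P f (y + K) : ℝ) - M (y + K))
    have h2 := le_abs_self ((P f (y - 1) : ℝ) - M (y - 1))
    linarith

end Pool.Agent.X50.ErrTerm
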